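import Pool.Agent.Helper23.AC.Basics
import Pool.Agent.Helper9.AC.Games

/-! AC-18: no infinite-dimensional subspace is asymptotic-`c_0`. The statements of the sections used
here are explicit hypotheses. -/

set_option autoImplicit false

namespace Pool.Agent.Helper91.AC

open Finset Pool.Agent.Helper23.AC


/-- statement of `exists_grp` -/
def HGrp : Prop := ∀ {x : ℕ → Fn} {l r : ℕ → ℕ} (_ : Blk x l r) (_ : ∀ s, x s ≠ 0)
    (v Lst r₀ : ℕ) (_ : 2 ≤ v),
    ∃ (u : Fn) (β : ℕ → ℝ) (lo hi : ℕ), u ∈ Submodule.span ℝ (Set.range x) ∧ r₀ < lo ∧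
      (∀ n ∈ u.support, lo ≤ n ∧ n ≤ hi) ∧ IsGrp v Lst lo hi β ∧ pr u β = 1 ∧ nx u ≤ 24

/-- statements of `nx_zero`, `nx_pos`, `pr_le_nx` -/
structure HNx : Prop where
  zero : nx 0 = 0
  pos : ∀ {x : Fn}, x ≠ 0 → 0 < nx x
  pr_le : ∀ {z : ℕ → ℝ} {a : ℝ}, 0 ≤ a → (∀ f, Good 0 f → pr f z ≤ a) → ∀ x : Fn,
    |pr x z| ≤ a * nx x

/-- statement of `eval_groups` -/
def HEval : Prop := ∀ (ε : ℝ), 0 < ε →
    ∃ (m : ℕ) (v : Fin m → ℕ) (α : Fin m → ℝ) (Lst : ℕ), (∀ j, 2 ≤ v j) ∧ (∀ j, 0 ≤ α j) ∧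
      ∑ j, α j = 1 ∧ ∀ (β : Fin m → ℕ → ℝ) (lo hi : Fin m → ℕ),
        (∀ j, IsGrp (v j) Lst (lo j) (hi j) (β j)) → (∀ i j, i < j → hi i < lo j) →
        ∀ f, Good 0 f → pr f (fun n => ∑ j, α j * β j n) ≤ ε

/-- statement of `Model.exists_blocks` -/
def HBlocks : Prop := ∀ {X : Type} [NormedAddCommGroup X] [NormedSpace ℝ X] (M : Model X)
    (Y : Submodule ℝ X) (_ : ¬ FiniteDimensional ℝ Y) (η : ℝ) (_ : 0 < η),
    ∃ (x : ℕ → Fn) (l r : ℕ → ℕ), Blk x l r ∧ (∀ s, nx (x s) = 1) ∧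
      ∀ u ∈ Submodule.span ℝ (Set.range x), ∃ y ∈ Y, ‖y - M.ι u‖ ≤ η * nx u

/-- statement of `exists_asymStruct_of_game` -/
def HAsym : Prop := ∀ {X : Type} [NormedAddCommGroup X] [NormedSpace ℝ X] {k : ℕ} (_ : 0 < k)
    (c : ℝ) (_ : Game X k fun x => (∀ j, ‖x j‖ = 1) ∧ c ≤ ‖∑ j, x j‖),
    ∃ N ∈ AsymStruct X k, c - 1 ≤ N fun _ => 1

section

variable {X : Type} [NormedAddCommGroup X] [NormedSpace ℝ X]

/-- the invariant of the strategy of the vector player -/
def LInv (M : Model X) (Y : Submodule ℝ X) (v : ℕ → ℕ) (Lst : ℕ) (η : ℝ) (j : ℕ)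
    (x : Fin j → Y) : Prop :=
  (∀ i, ‖x i‖ = 1) ∧ ∃ (u : ℕ → Fn) (β : ℕ → ℕ → ℝ) (lo hi : ℕ → ℕ),
    (∀ i (h : i < j), ‖((x ⟨i, h⟩ : Y) : X) - M.ι (u i)‖ ≤ η) ∧
    (∀ i < j, (∀ n ∈ (u i).support, lo i ≤ n ∧ n ≤ hi i) ∧ IsGrp (v i) Lst (lo i) (hi i) (β i) ∧
      1 / 30 ≤ pr (u i) (β i)) ∧
    ∀ i i', i < i' → i' < j → hi i < lo i'

theorem linv_step (hg : HGrp) (hnx : HNx) (hbl : HBlocks) (M : Model X) (Y : Submodule ℝ X) (hY : ¬ FiniteDimensional ℝ Y) (v : ℕ → ℕ)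
    (hv : ∀ i, 2 ≤ v i) (Lst : ℕ) (η : ℝ) (hη : 0 < η) (hη1 : η ≤ 1 / 2) (j : ℕ) (x : Fin j → Y)
    (hx : LInv M Y v Lst η j x) (Z : Submodule ℝ Y) (hZ : Z ∈ Cof Y) :
    ∃ z ∈ Z, ‖z‖ = 1 ∧ LInv M Y v Lst η (j + 1) (Fin.snoc x z) := by
  obtain ⟨hx1, u, β, lo, hi, h1, h2, h3⟩ := hx
  have hZ' : ¬ FiniteDimensional ℝ (Z.map Y.subtype) := by
    intro hf
    apply hY
    have e := (Submodule.equivMapOfInjective Y.subtype Y.injective_subtype Z)
    have : FiniteDimensional ℝ Z := e.symm.finiteDimensional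
    have : FiniteDimensional ℝ (Y ⧸ Z) := hZ.2
    exact Module.Finite.of_submodule_quotient Z
  obtain ⟨xx, l, r, hB, hn, happ⟩ := hbl M (Z.map Y.subtype) hZ' (η / 2) (by positivity)
  have hxx : ∀ s, xx s ≠ 0 := by
    intro s h0
    have := hn s
    rw [h0, hnx.zero] at this
    exact zero_ne_one this
  obtain ⟨w, γ, a, b, hw, ha, hwab, hG, hpr, hnw⟩ :=
    hg hB hxx (v j) Lst ((range j).sup hi) (hv j)
  obtain ⟨y, hyZ, hy⟩ := happ w hw
  obtain ⟨z, hzZ, rfl⟩ := (Submodule.mem_map).1 hyZ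
  have hw0 : w ≠ 0 := by
    rintro rfl
    rw [pr_zero] at hpr
    exact zero_ne_one hpr
  have hnw0 : 0 < nx w := hnx.pos hw0
  have hnι : ‖M.ι w‖ = nx w := M.norm_ι w
  have hzn : ‖(Y.subtype z : X)‖ = ‖z‖ := rfl
  have hlow : (1 - η / 2) * nx w ≤ ‖z‖ := by
    have := norm_sub_norm_le (M.ι w) (Y.subtype z)
    rw [norm_sub_rev] at this
    rw [hnι, hzn] at this
    linarith
  have hupp : ‖z‖ ≤ (1 + η / 2) * nx w := by
    have := norm_sub_norm_le (Y.subtype z) (M.ι w)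
    rw [hnι, hzn] at this
    linarith
  have hzpos : 0 < ‖z‖ := lt_of_lt_of_le (mul_pos (by linarith) hnw0) hlow
  have hz30 : ‖z‖ ≤ 30 := by nlinarith
  refine ⟨‖z‖⁻¹ • z, Z.smul_mem _ hzZ, ?_, ?_, ?_⟩
  · rw [norm_smul, norm_inv, norm_norm, inv_mul_cancel₀ hzpos.ne']
  · intro i
    refine Fin.lastCases ?_ (fun i => ?_) i
    · rw [Fin.snoc_last, norm_smul, norm_inv, norm_norm, inv_mul_cancel₀ hzpos.ne']
    · rw [Fin.snoc_castSucc]
      exact hx1 i
  · refine ⟨Function.update u j (‖z‖⁻¹ • w), Function.update β j γ, Function.update lo j a,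
      Function.update hi j b, ?_, ?_, ?_⟩
    · intro i hi'
      rcases Nat.lt_succ_iff_lt_or_eq.1 hi' with h | rfl
      · rw [Function.update_of_ne h.ne]
        have : (⟨i, hi'⟩ : Fin (j + 1)) = Fin.castSucc ⟨i, h⟩ := rfl
        rw [this, Fin.snoc_castSucc]
        exact h1 i h
      · rw [Function.update_self]
        have : (⟨i, hi'⟩ : Fin (i + 1)) = Fin.last i := rfl
        rw [this, Fin.snoc_last]
        have e1 : ((‖z‖⁻¹ • z : Y) : X) - M.ι (‖z‖⁻¹ • w) = ‖z‖⁻¹ • (Y.subtype z - M.ι w) := by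
          rw [map_smul, smul_sub]
          rfl
        rw [e1, norm_smul, norm_inv, norm_norm, inv_mul_le_iff₀ hzpos]
        refine hy.trans ?_
        nlinarith
    · intro i hi'
      rcases Nat.lt_succ_iff_lt_or_eq.1 hi' with h | rfl
      · rw [Function.update_of_ne h.ne, Function.update_of_ne h.ne, Function.update_of_ne h.ne,
          Function.update_of_ne h.ne]
        exact h2 i h
      · rw [Function.update_self, Function.update_self, Function.update_self, Function.update_self]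
        refine ⟨?_, hG, ?_⟩
        · intro n hn'
          apply hwab
          rw [Finsupp.mem_support_iff] at hn' ⊢
          intro h0
          apply hn'
          rw [Finsupp.smul_apply, h0, smul_zero]
        · rw [pr_smul, hpr, mul_one, one_div]
          exact inv_anti₀ hzpos hz30
    · intro i i' hii hi'
      have hij : i ≠ j := by omega
      rw [Function.update_of_ne hij]
      rcases Nat.lt_succ_iff_lt_or_eq.1 hi' with h | rfl
      · rw [Function.update_of_ne h.ne]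
        exact h3 i i' hii h
      · rw [Function.update_self]
        exact lt_of_le_of_lt (Finset.le_sup (f := hi) (Finset.mem_range.2 hii)) ha

theorem grp_supp {v Lst lo hi : ℕ} {β : ℕ → ℝ} (hG : IsGrp v Lst lo hi β) (n : ℕ)
    (hn : β n ≠ 0) : lo ≤ n ∧ n ≤ hi := by
  obtain ⟨F, b, y, w, l, r, L, hb, hb1, hp, hL, hsep, hω, hβ⟩ := hG
  by_contra hcon
  apply hn
  rw [hβ, Finset.sum_eq_zero, mul_zero]
  intro s hs
  by_cases hw : w s n = 0
  · rw [hw, mul_zero]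
  · exfalso
    apply hcon
    have h1 := (hp s hs).wsupp n hw
    have h2 := hL s hs
    omega

theorem pr_disj {f : Fn} {z : ℕ → ℝ} {lo hi lo' hi' : ℕ} (hf : ∀ n ∈ f.support, lo ≤ n ∧ n ≤ hi)
    (hz : ∀ n, z n ≠ 0 → lo' ≤ n ∧ n ≤ hi') (h : hi < lo' ∨ hi' < lo) : pr f z = 0 := by
  unfold pr
  refine Finset.sum_eq_zero fun n hn => ?_
  by_cases h0 : z n = 0
  · rw [h0, mul_zero]
  · exfalso
    have h1 := hf n hn
    have h2 := hz n h0
    omega

theorem not_asymC0_of (hg : HGrp) (hnx : HNx) (hbl : HBlocks) (hev0 : HEval) (has : HAsym)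
    (M : Model X) (Y : Submodule ℝ X) (hY : ¬ FiniteDimensional ℝ Y) :
    ¬ AsymC0 Y := by
  rintro ⟨c, hc, h⟩
  have hc3 : 0 < c + 3 := by linarith
  obtain ⟨m, v, α, Lst, hv, hα, hα1, hev⟩ := hev0 (1 / (30 * (c + 3))) (by positivity)
  have hm : 0 < m := by
    rcases Nat.eq_zero_or_pos m with rfl | hm
    · simp at hα1
    · exact hm
  obtain ⟨v', hv', hvv⟩ : ∃ v' : ℕ → ℕ, (∀ i, 2 ≤ v' i) ∧ ∀ i : Fin m, v' i = v i := by
    refine ⟨fun i => if h : i < m then v ⟨i, h⟩ else 2, ?_, ?_⟩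
    · intro i
      dsimp only
      split_ifs
      · exact hv _
      · exact le_rfl
    · intro i
      simp
  have hm1 : (0 : ℝ) < m + 1 := by positivity
  have hm2 : (1 : ℝ) ≤ m := by exact_mod_cast hm
  have game : Game Y m (fun x => (∀ j, ‖x j‖ = 1) ∧ c + 2 ≤ ‖∑ j, x j‖) := by
    refine game_of_strategy (LInv M Y v' Lst (1 / (m + 1))) ?_ ?_ ?_
    · refine ⟨fun i => i.elim0, 0, 0, 0, 0, ?_, ?_, ?_⟩
      · intro i hi
        omega
      · intro i hi
        omega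
      · intro i i' _ hi
        omega
    · intro j _ x hx Z hZ
      refine linv_step hg hnx hbl M Y hY v' hv' Lst _ (by positivity) ?_ j x hx Z hZ
      rw [div_le_div_iff₀ hm1 (by norm_num)]
      linarith
    · rintro x ⟨hx1, u, β, lo, hi, h1, h2, h3⟩
      refine ⟨hx1, ?_⟩
      have hG : ∀ j : Fin m, IsGrp (v j) Lst (lo j) (hi j) (β j) := fun j => by
        rw [← hvv j]
        exact (h2 j j.2).2.1
      have hev' := hev (fun j => β j) (fun j => lo j) (fun j => hi j) hG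
        (fun i j hij => h3 i j hij j.2)
      have e1 := hnx.pr_le (by positivity) hev' (∑ j : Fin m, u j)
      have e2 : pr (∑ j : Fin m, u j) (fun n => ∑ j : Fin m, α j * β j n) =
          ∑ j : Fin m, α j * pr (u j) (β j) := by
        rw [pr_fsum]
        refine Finset.sum_congr rfl fun i _ => ?_
        rw [pr_sum, Finset.sum_eq_single i]
        · intro j _ hj
          refine pr_disj (h2 j j.2).1 (grp_supp (hG i)) ?_
          rcases lt_or_gt_of_ne hj with h | h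
          · exact Or.inl (h3 j i h i.2)
          · exact Or.inr (h3 i j h j.2)
        · intro h
          exact absurd (Finset.mem_univ _) h
      have e3 : (1 / 30 : ℝ) ≤ ∑ j : Fin m, α j * pr (u j) (β j) := by
        calc (1 / 30 : ℝ) = ∑ j : Fin m, α j * (1 / 30) := by
              rw [← Finset.sum_mul, hα1, one_mul]
          _ ≤ _ := Finset.sum_le_sum fun j _ =>
              mul_le_mul_of_nonneg_left (h2 j j.2).2.2 (hα j)
      have e4 : c + 3 ≤ nx (∑ j : Fin m, u j) := by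
        rw [e2] at e1
        have e5 := e3.trans ((le_abs_self _).trans e1)
        rw [div_mul_eq_mul_div, one_mul, div_le_div_iff₀ (by norm_num) (by positivity)] at e5
        linarith
      have e6 : ‖M.ι (∑ j : Fin m, u j)‖ = nx (∑ j : Fin m, u j) := M.norm_ι _
      have e7 : ‖((∑ j, x j : Y) : X) - M.ι (∑ j : Fin m, u j)‖ ≤ 1 := by
        have g1 : ((∑ j, x j : Y) : X) - M.ι (∑ j : Fin m, u j) =
            ∑ j : Fin m, (((x j : Y) : X) - M.ι (u j)) := by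
          rw [map_sum, Submodule.coe_sum, Finset.sum_sub_distrib]
        have g2 : ∀ j : Fin m, ‖((x j : Y) : X) - M.ι (u j)‖ ≤ 1 / ((m : ℝ) + 1) :=
          fun j => h1 j j.2
        rw [g1]
        refine (norm_sum_le _ _).trans ((Finset.sum_le_sum fun j _ => g2 j).trans ?_)
        rw [Finset.sum_const, Finset.card_univ, Fintype.card_fin, nsmul_eq_mul, mul_one_div,
          div_le_one hm1]
        linarith
      have e8 := norm_sub_norm_le (M.ι (∑ j : Fin m, u j)) ((∑ j, x j : Y) : X)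
      rw [norm_sub_rev] at e8
      have e9 : ‖((∑ j, x j : Y) : X)‖ = ‖∑ j, x j‖ := rfl
      linarith
  obtain ⟨N, hN, hN1⟩ := has hm (c + 2) game
  obtain ⟨a, b, ha, hb, hab, hE⟩ := h m N hN
  have : Nonempty (Fin m) := ⟨⟨0, hm⟩⟩
  have f1 := (hE fun _ => 1).2
  have f2 := (hE (Pi.single ⟨0, hm⟩ 1)).1
  beta_reduce at f1 f2
  rw [pi_norm_const, norm_one, mul_one] at f1
  rw [hN.1.normalized] at f2
  have f3 : ‖(Pi.single (⟨0, hm⟩ : Fin m) (1 : ℝ) : Fin m → ℝ)‖ = 1 := by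
    rw [Pi.norm_single, norm_one]
  rw [f3, mul_one] at f2
  have f4 : 1 ≤ a := by
    have := mul_le_mul_of_nonneg_left f2 ha.le
    rwa [mul_inv_cancel₀ ha.ne', mul_one] at this
  have f5 : b ≤ a * b := by nlinarith
  linarith

end

end Pool.Agent.Helper91.AC
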